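import Mathlib

/-!
Coordinates on a torsion-free abelian group: for every prime `p` an additive map to a power of the
p-adic integers, with kernel the set of elements divisible by every power of `p`.
-/

set_option autoImplicit false

namespace H215_Arch

/-- The multiples of `n`. -/
def Dv (G : Type) [AddCommGroup G] (n : ℕ) : AddSubgroup G :=
  (nsmulAddMonoidHom n : G →+ G).range

lemma mem_Dv {G : Type} [AddCommGroup G] {n : ℕ} {x : G} : x ∈ Dv G n ↔ ∃ y, n • y = x := by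
  simp [Dv]

lemma Dv_mono {G : Type} [AddCommGroup G] {m n : ℕ} (h : m ∣ n) : Dv G n ≤ Dv G m := by
  intro x hx
  obtain ⟨y, rfl⟩ := mem_Dv.mp hx
  obtain ⟨k, rfl⟩ := h
  exact mem_Dv.mpr ⟨k • y, by rw [smul_smul]⟩

section Basis

variable (G : Type) [AddCommGroup G] (p : ℕ) [Fact p.Prime]

/-- Integral combinations of a family. -/
noncomputable def comb {G : Type} [AddCommGroup G] {I : Type} (b : I → G) : (I →₀ ℤ) →ₗ[ℤ] G :=
  Finsupp.linearCombination ℤ b

lemma exists_basis_aux {G : Type} [AddCommGroup G] (p : ℕ) [Fact p.Prime] (Q : Type)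
    [AddCommGroup Q] [Module (ZMod p) Q] (mk : G →+ Q) (hsurj : Function.Surjective mk)
    (hker : ∀ x : G, mk x = 0 ↔ x ∈ Dv G p) :
    ∃ (I : Type) (b : I → G), (∀ g : G, ∃ c : I →₀ ℤ, g - comb b c ∈ Dv G p) ∧
      (∀ c : I →₀ ℤ, comb b c ∈ Dv G p → ∀ i, (p : ℤ) ∣ c i) := by
  classical
  let B := Module.Basis.ofVectorSpace (ZMod p) Q
  choose b hb using fun i => hsurj (B i)
  have hcomb : ∀ c : _ →₀ ℤ, mk (comb b c)
      = Finsupp.linearCombination (ZMod p) B (c.mapRange (fun z : ℤ => (z : ZMod p)) (by simp)) := by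
    intro c
    rw [comb, Finsupp.linearCombination_apply, Finsupp.linearCombination_apply, map_finsuppSum,
      Finsupp.sum_mapRange_index (by simp)]
    refine Finsupp.sum_congr fun i _ => ?_
    rw [map_zsmul, hb, Int.cast_smul_eq_zsmul]
  refine ⟨_, b, ?_, ?_⟩
  · intro g
    refine ⟨(B.repr (mk g)).mapRange (fun z : ZMod p => (z.val : ℤ)) (by simp), ?_⟩
    rw [← hker, map_sub, hcomb, sub_eq_zero]
    have : ((B.repr (mk g)).mapRange (fun z : ZMod p => (z.val : ℤ)) (by simp)).mapRange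
        (fun z : ℤ => (z : ZMod p)) (by simp) = B.repr (mk g) := by
      ext i
      simp
    rw [this, B.linearCombination_repr]
  · intro c hc i
    rw [← hker, hcomb] at hc
    have h0 := (linearIndependent_iff.mp B.linearIndependent) _ hc
    have h1 := DFunLike.congr_fun h0 i
    simp only [Finsupp.mapRange_apply, Finsupp.coe_zero, Pi.zero_apply] at h1
    exact (ZMod.intCast_zmod_eq_zero_iff_dvd _ _).mp h1

lemma exists_basis_mod :
    ∃ (I : Type) (b : I → G), (∀ g : G, ∃ c : I →₀ ℤ, g - comb b c ∈ Dv G p) ∧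
      (∀ c : I →₀ ℤ, comb b c ∈ Dv G p → ∀ i, (p : ℤ) ∣ c i) := by
  have hQ : ∀ x : G ⧸ Dv G p, p • x = 0 := by
    intro x
    induction x using QuotientAddGroup.induction_on with
    | H z =>
      have : p • z ∈ Dv G p := mem_Dv.mpr ⟨z, rfl⟩
      have h2 := (QuotientAddGroup.eq_zero_iff (p • z)).mpr this
      simpa using h2
  let M : Module (ZMod p) (G ⧸ Dv G p) := AddCommGroup.zmodModule hQ
  exact @exists_basis_aux G _ p _ (G ⧸ Dv G p) _ M (QuotientAddGroup.mk' (Dv G p))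
    (QuotientAddGroup.mk'_surjective _) (fun x => QuotientAddGroup.eq_zero_iff x)

end Basis

section Lift

variable {G : Type} [AddCommGroup G] (p : ℕ) [Fact p.Prime] {I : Type} (b : I → G)

lemma approx (h1 : ∀ g : G, ∃ c : I →₀ ℤ, g - comb b c ∈ Dv G p) (n : ℕ) (g : G) :
    ∃ c : I →₀ ℤ, g - comb b c ∈ Dv G (p ^ n) := by
  induction n with
  | zero => exact ⟨0, mem_Dv.mpr ⟨g, by simp⟩⟩
  | succ n ih =>
    obtain ⟨c, hc⟩ := ih
    obtain ⟨y, hy⟩ := mem_Dv.mp hc
    obtain ⟨c', hc'⟩ := h1 y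
    obtain ⟨z, hz⟩ := mem_Dv.mp hc'
    refine ⟨c + (p ^ n) • c', mem_Dv.mpr ⟨z, ?_⟩⟩
    rw [map_add, map_nsmul, pow_succ, mul_smul, hz, smul_sub, hy]
    abel

lemma rigid (htf : ∀ g : G, ∀ n : ℕ, n ≠ 0 → n • g = 0 → g = 0)
    (h2 : ∀ c : I →₀ ℤ, comb b c ∈ Dv G p → ∀ i, (p : ℤ) ∣ c i) (n : ℕ) :
    ∀ c : I →₀ ℤ, comb b c ∈ Dv G (p ^ n) → ∀ i, (p : ℤ) ^ n ∣ c i := by
  have hp : p ≠ 0 := (Fact.out : p.Prime).ne_zero
  induction n with
  | zero => intro c _ i; simp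
  | succ n ih =>
    intro c hc i
    have hd := h2 c (Dv_mono (dvd_pow_self p (Nat.succ_ne_zero n)) hc)
    let c' : I →₀ ℤ := c.mapRange (fun z => z / (p : ℤ)) (by simp)
    have hcc' : c = p • c' := by
      ext j
      simp only [c', Finsupp.coe_smul, Pi.smul_apply, Finsupp.mapRange_apply, nsmul_eq_mul]
      exact (Int.mul_ediv_cancel' (hd j)).symm
    obtain ⟨y, hy⟩ := mem_Dv.mp hc
    have : comb b c' ∈ Dv G (p ^ n) := by
      refine mem_Dv.mpr ⟨y, ?_⟩
      have h3 : p • (p ^ n • y - comb b c') = 0 := by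
        rw [smul_sub, smul_smul, ← pow_succ', hy, hcc', map_nsmul, sub_self]
      exact sub_eq_zero.mp (htf _ p hp h3)
    have h4 := ih c' this i
    have h5 : c i = (p : ℤ) * c' i := by
      conv_lhs => rw [hcc']
      simp
    rw [h5, pow_succ']
    exact mul_dvd_mul_left _ h4

end Lift

section Padic

variable (p : ℕ) [Fact p.Prime]

lemma padic_lim (a : ℕ → ℤ_[p]) (h : ∀ m n, m ≤ n → (p : ℤ_[p]) ^ m ∣ a m - a n) :
    ∃ L : ℤ_[p], ∀ n, (p : ℤ_[p]) ^ n ∣ a n - L := by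
  have hc : IsPrecomplete (IsLocalRing.maximalIdeal ℤ_[p]) ℤ_[p] := inferInstance
  obtain ⟨L, hL⟩ := hc.prec (f := a) (by
    intro m n hmn
    rw [SModEq.sub_mem, smul_eq_mul, Ideal.mul_top, PadicInt.maximalIdeal_eq_span_p,
      Ideal.span_singleton_pow, Ideal.mem_span_singleton]
    exact h m n hmn)
  refine ⟨L, fun n => ?_⟩
  have := hL n
  rwa [SModEq.sub_mem, smul_eq_mul, Ideal.mul_top, PadicInt.maximalIdeal_eq_span_p,
      Ideal.span_singleton_pow, Ideal.mem_span_singleton] at this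

lemma padic_sep (x : ℤ_[p]) (h : ∀ n, (p : ℤ_[p]) ^ n ∣ x) : x = 0 := by
  have hc : IsHausdorff (IsLocalRing.maximalIdeal ℤ_[p]) ℤ_[p] := inferInstance
  refine hc.haus x fun n => ?_
  rw [SModEq.sub_mem, smul_eq_mul, Ideal.mul_top, PadicInt.maximalIdeal_eq_span_p,
      Ideal.span_singleton_pow, Ideal.mem_span_singleton, sub_zero]
  exact h n

end Padic

/-- p-adic coordinates on a torsion-free group. -/
theorem exists_coord (G : Type) [AddCommGroup G]
    (htf : ∀ g : G, ∀ n : ℕ, n ≠ 0 → n • g = 0 → g = 0) (p : ℕ) [Fact p.Prime] :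
    ∃ (I : Type) (b : I → G) (Ψ : G →+ (I → ℤ_[p])),
      (∀ n g, ∃ c : I →₀ ℤ, g - comb b c ∈ Dv G (p ^ n)) ∧
      (∀ n g (c : I →₀ ℤ), g - comb b c ∈ Dv G (p ^ n) ↔
        ∀ i, (p : ℤ_[p]) ^ n ∣ Ψ g i - (c i : ℤ_[p])) := by
  obtain ⟨I, b, h1, h2⟩ := exists_basis_mod G p
  have A := approx p b h1
  have R := rigid p b htf h2
  choose c hc using A
  -- two approximations are congruent
  have cong : ∀ (n : ℕ) (g : G) (c1 c2 : I →₀ ℤ), g - comb b c1 ∈ Dv G (p ^ n) →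
      g - comb b c2 ∈ Dv G (p ^ n) → ∀ i, (p : ℤ_[p]) ^ n ∣ (c1 i : ℤ_[p]) - (c2 i : ℤ_[p]) := by
    intro n g c1 c2 e1 e2 i
    have e3 : comb b (c1 - c2) ∈ Dv G (p ^ n) := by
      have := (Dv G (p ^ n)).sub_mem e2 e1
      have h : comb b (c1 - c2) = g - comb b c2 - (g - comb b c1) := by
        rw [map_sub]; abel
      rw [h]; exact this
    have e4 := R n (c1 - c2) e3 i
    have e5 : (p : ℤ_[p]) ^ n ∣ (((c1 - c2) i : ℤ) : ℤ_[p]) := by
      rw [PadicInt.pow_p_dvd_int_iff]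
      exact_mod_cast e4
    simpa using e5
  have key : ∀ (g : G) (i : I), ∃ L : ℤ_[p], ∀ n, (p : ℤ_[p]) ^ n ∣ ((c n g i : ℤ) : ℤ_[p]) - L := by
    intro g i
    refine padic_lim p _ ?_
    intro m n hmn
    exact cong m g _ _ (hc m g) (Dv_mono (pow_dvd_pow p hmn) (hc n g)) i
  choose ψ hψ using key
  have spec : ∀ (n : ℕ) (g : G) (d : I →₀ ℤ), g - comb b d ∈ Dv G (p ^ n) →
      ∀ i, (p : ℤ_[p]) ^ n ∣ ψ g i - (d i : ℤ_[p]) := by
    intro n g d hd i
    have e1 := cong n g _ _ (hc n g) hd i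
    have e2 := hψ g i n
    have := dvd_sub e1 e2
    have h : ψ g i - (d i : ℤ_[p])
      = ((c n g i : ℤ) : ℤ_[p]) - (d i : ℤ_[p]) - (((c n g i : ℤ) : ℤ_[p]) - ψ g i) := by ring
    rw [h]; exact this
  let Ψ : G →+ (I → ℤ_[p]) := AddMonoidHom.mk' ψ (by
    intro g h
    funext i
    apply eq_of_sub_eq_zero
    apply padic_sep
    intro n
    have e1 : g + h - comb b (c n g + c n h) ∈ Dv G (p ^ n) := by
      have := (Dv G (p ^ n)).add_mem (hc n g) (hc n h)
      have h' : g + h - comb b (c n g + c n h) = g - comb b (c n g) + (h - comb b (c n h)) := by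
        rw [map_add]; abel
      rw [h']; exact this
    have e2 := spec n _ _ e1 i
    have e3 := hψ g i n
    have e4 := hψ h i n
    have := dvd_add e2 (dvd_add e3 e4)
    have h' : ψ (g + h) i - (ψ g + ψ h) i = ψ (g + h) i - (((c n g + c n h) i : ℤ) : ℤ_[p])
        + ((((c n g i : ℤ) : ℤ_[p]) - ψ g i) + (((c n h i : ℤ) : ℤ_[p]) - ψ h i)) := by
      simp only [Pi.add_apply, Finsupp.add_apply, Int.cast_add]
      ring
    rw [h']; exact this)
  refine ⟨I, b, Ψ, fun n g => ⟨c n g, hc n g⟩, fun n g d => ⟨fun h => spec n g d h, ?_⟩⟩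
  intro hd
  -- `c n g` and `d` are congruent modulo `p ^ n`
  have e1 : ∀ i, (p : ℤ) ^ n ∣ c n g i - d i := by
    intro i
    have h3 := hψ g i n
    have h4 := hd i
    have h5 : (p : ℤ_[p]) ^ n ∣ ((c n g i - d i : ℤ) : ℤ_[p]) := by
      have h6 : ((c n g i - d i : ℤ) : ℤ_[p])
        = (((c n g i : ℤ) : ℤ_[p]) - ψ g i) + (ψ g i - (d i : ℤ_[p])) := by
          push_cast; ring
      rw [h6]; exact dvd_add h3 h4
    rw [PadicInt.pow_p_dvd_int_iff] at h5
    exact_mod_cast h5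
  let c' : I →₀ ℤ := (c n g - d).mapRange (fun z => z / ((p : ℤ) ^ n)) (by simp)
  have hcc' : c n g - d = (p ^ n) • c' := by
    ext j
    simp only [c', Finsupp.coe_smul, Pi.smul_apply, Finsupp.mapRange_apply, nsmul_eq_mul]
    push_cast
    exact (Int.mul_ediv_cancel' (e1 j)).symm
  have e2 : comb b (c n g - d) ∈ Dv G (p ^ n) := by
    rw [hcc', map_nsmul]; exact mem_Dv.mpr ⟨_, rfl⟩
  have := (Dv G (p ^ n)).add_mem (hc n g) e2
  have h' : g - comb b d = g - comb b (c n g) + comb b (c n g - d) := by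
    rw [map_sub]; abel
  rw [h']; exact this

end H215_Arch
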