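import Mathlib
import Pool.Agent.H215_Arch.Coord

/-!
In a torsion-free group complete in its integer-adic topology, the families of p-adic coordinates are
closed under restriction.
-/

set_option autoImplicit false

namespace H215_Arch

open scoped Nat

local instance factPrimes (p : Nat.Primes) : Fact (p : ℕ).Prime := ⟨p.2⟩

section

variable {G : Type} [AddCommGroup G]

lemma Dv_coprime {a b : ℕ} (hab : Nat.Coprime a b) {x : G} (ha : x ∈ Dv G a) (hb : x ∈ Dv G b) :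
    x ∈ Dv G (a * b) := by
  obtain ⟨y, hy⟩ := mem_Dv.mp ha
  obtain ⟨z, hz⟩ := mem_Dv.mp hb
  have hbez : (a : ℤ) * Nat.gcdA a b + (b : ℤ) * Nat.gcdB a b = 1 := by
    have := Nat.gcd_eq_gcd_ab a b
    rw [hab] at this
    simpa using this.symm
  have hy' : (a : ℤ) • y = x := by rw [← hy, natCast_zsmul]
  have hz' : (b : ℤ) • z = x := by rw [← hz, natCast_zsmul]
  refine mem_Dv.mpr ⟨Nat.gcdA a b • z + Nat.gcdB a b • y, ?_⟩
  rw [← natCast_zsmul]
  push_cast
  have h1 : ((a : ℤ) * (b : ℤ)) • (Nat.gcdA a b • z) = ((a : ℤ) * Nat.gcdA a b) • x := by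
    rw [← hz', smul_smul, smul_smul]; congr 1; ring
  have h2 : ((a : ℤ) * (b : ℤ)) • (Nat.gcdB a b • y) = ((b : ℤ) * Nat.gcdB a b) • x := by
    rw [← hy', smul_smul, smul_smul]; congr 1; ring
  rw [smul_add, h1, h2, ← add_smul, hbez, one_smul]

lemma Dv_of_primes {x : G} (m : ℕ) : m ≠ 0 →
    (∀ p k : ℕ, p.Prime → p ^ k ∣ m → x ∈ Dv G (p ^ k)) → x ∈ Dv G m := by
  induction m using Nat.recOnPosPrimePosCoprime with
  | prime_pow p n hp hn => intro _ h; exact h p n hp dvd_rfl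
  | zero => intro h; exact absurd rfl h
  | one => intro _ _; exact mem_Dv.mpr ⟨x, one_smul _ _⟩
  | coprime a b ha hb hab iha ihb =>
    intro _ h
    refine Dv_coprime hab (iha (by omega) fun p k hp hd => h p k hp (hd.mul_right b))
      (ihb (by omega) fun p k hp hd => h p k hp (hd.mul_left a))

lemma crt (n : ℕ) (w : Nat.Primes → G) (S : Finset Nat.Primes) :
    ∃ u : G, ∀ p ∈ S, u - w p ∈ Dv G ((p : ℕ) ^ n) := by
  classical
  induction S using Finset.induction_on with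
  | empty => exact ⟨0, by simp⟩
  | insert q S hq ih =>
    obtain ⟨u, hu⟩ := ih
    let M : ℕ := ∏ p ∈ S, (p : ℕ) ^ n
    have hcop : Nat.Coprime M ((q : ℕ) ^ n) := by
      refine Nat.Coprime.prod_left fun p hp => ?_
      refine Nat.Coprime.pow _ _ ?_
      rw [Nat.coprime_primes p.2 q.2]
      intro h
      exact hq (by rw [← Subtype.ext h]; exact hp)
    have hbez : (M : ℤ) * Nat.gcdA M ((q : ℕ) ^ n)
        + (((q : ℕ) ^ n : ℕ) : ℤ) * Nat.gcdB M ((q : ℕ) ^ n) = 1 := by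
      have := Nat.gcd_eq_gcd_ab M ((q : ℕ) ^ n)
      rw [hcop] at this
      simpa using this.symm
    set α := Nat.gcdA M ((q : ℕ) ^ n)
    set β := Nat.gcdB M ((q : ℕ) ^ n)
    refine ⟨u + ((M : ℤ) * α) • (w q - u), ?_⟩
    intro p hp
    rcases Finset.mem_insert.mp hp with rfl | hp
    · have : u + ((M : ℤ) * α) • (w p - u) - w p = (p : ℕ) ^ n • (β • (u - w p)) := by
        have e1 : (p : ℕ) ^ n • (β • (u - w p)) = (((((p : ℕ) ^ n : ℕ) : ℤ)) * β) • (u - w p) := by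
          rw [← natCast_zsmul, smul_smul]
        have e2 : ((((p : ℕ) ^ n : ℕ) : ℤ)) * β = 1 - (M : ℤ) * α := by linarith
        rw [e1, e2, sub_smul, one_smul, smul_sub, smul_sub]
        abel
      rw [this]
      exact mem_Dv.mpr ⟨_, rfl⟩
    · have h1 : ((M : ℤ) * α) • (w q - u) ∈ Dv G ((p : ℕ) ^ n) := by
        have hd : (p : ℕ) ^ n ∣ M := Finset.dvd_prod_of_mem (fun p : Nat.Primes => (p : ℕ) ^ n) hp
        refine Dv_mono hd (mem_Dv.mpr ⟨α • (w q - u), ?_⟩)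
        rw [← natCast_zsmul, smul_smul]
      have h2 := (Dv G ((p : ℕ) ^ n)).add_mem (hu p hp) h1
      have : u + ((M : ℤ) * α) • (w q - u) - w p = u - w p + ((M : ℤ) * α) • (w q - u) := by abel
      rw [this]; exact h2

end

/-- Every Cauchy sequence of the integer-adic topology of `G` converges. -/
def CauchyComplete (G : Type) [AddCommGroup G] : Prop :=
  ∀ f : ℕ → G, (∀ n : ℕ, ∃ y : G, f (n + 1) - f n = n ! • y) →
    ∃ L : G, ∀ n : ℕ, ∃ y : G, L - f n = n ! • y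

theorem exists_restr {G : Type} [AddCommGroup G] (hG : CauchyComplete G)
    {I : Nat.Primes → Type} (b : ∀ p, I p → G) (Ψ : ∀ p : Nat.Primes, G →+ (I p → ℤ_[(p : ℕ)]))
    (hA : ∀ (p : Nat.Primes) (n : ℕ) (g : G), ∃ c : I p →₀ ℤ, g - comb (b p) c ∈ Dv G ((p : ℕ) ^ n))
    (hS : ∀ (p : Nat.Primes) (n : ℕ) (g : G) (c : I p →₀ ℤ), g - comb (b p) c ∈ Dv G ((p : ℕ) ^ n) ↔
        ∀ i, ((p : ℕ) : ℤ_[(p : ℕ)]) ^ n ∣ Ψ p g i - (c i : ℤ_[(p : ℕ)]))
    (g : G) (J : ∀ p, Set (I p)) :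
    ∃ L : G, ∀ p i, (i ∈ J p → Ψ p L i = Ψ p g i) ∧ (i ∉ J p → Ψ p L i = 0) := by
  classical
  choose c hc using fun (p : Nat.Primes) (n : ℕ) => hA p n g
  let F : ∀ p, (I p →₀ ℤ) → (I p →₀ ℤ) := fun p d => d.filter (· ∈ J p)
  let w : ∀ (_ : Nat.Primes) (_ : ℕ), G := fun p n => comb (b p) (F p (c p n))
  have cong : ∀ (p : Nat.Primes) (m : ℕ) (c1 c2 : I p →₀ ℤ),
      (∀ i, ((p : ℕ) : ℤ_[(p : ℕ)]) ^ m ∣ (c1 i : ℤ_[(p : ℕ)]) - (c2 i : ℤ_[(p : ℕ)])) →
      comb (b p) c1 - comb (b p) c2 ∈ Dv G ((p : ℕ) ^ m) := by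
    intro p m c1 c2 h
    rw [hS]
    intro i
    have h1 := (hS p m (comb (b p) c1) c1).mp (by rw [sub_self]; exact AddSubgroup.zero_mem _) i
    have h2 := dvd_add h1 (h i)
    have : Ψ p (comb (b p) c1) i - (c2 i : ℤ_[(p : ℕ)])
      = Ψ p (comb (b p) c1) i - (c1 i : ℤ_[(p : ℕ)])
        + ((c1 i : ℤ_[(p : ℕ)]) - (c2 i : ℤ_[(p : ℕ)])) := by ring
    rw [this]; exact h2
  have congF : ∀ (p : Nat.Primes) (m n : ℕ), m ≤ n → w p n - w p m ∈ Dv G ((p : ℕ) ^ m) := by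
    intro p m n hmn
    refine cong p m _ _ fun i => ?_
    by_cases hi : i ∈ J p
    · have e1 : F p (c p n) i = c p n i := Finsupp.filter_apply_pos _ _ hi
      have e2 : F p (c p m) i = c p m i := Finsupp.filter_apply_pos _ _ hi
      rw [e1, e2]
      have h1 := (hS p n g (c p n)).mp (hc p n) i
      have h2 := (hS p m g (c p m)).mp (hc p m) i
      have h3 := dvd_sub h2 ((pow_dvd_pow _ hmn).trans h1)
      have : ((c p n i : ℤ) : ℤ_[(p : ℕ)]) - ((c p m i : ℤ) : ℤ_[(p : ℕ)])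
        = Ψ p g i - ((c p m i : ℤ) : ℤ_[(p : ℕ)]) - (Ψ p g i - ((c p n i : ℤ) : ℤ_[(p : ℕ)])) := by
          ring
      rw [this]; exact h3
    · have e1 : F p (c p n) i = 0 := Finsupp.filter_apply_neg _ _ hi
      have e2 : F p (c p m) i = 0 := Finsupp.filter_apply_neg _ _ hi
      rw [e1, e2]; simp
  -- finitely many primes at a time
  have fin : ∀ n : ℕ, ∃ S : Finset Nat.Primes, ∀ p : Nat.Primes, (p : ℕ) ≤ n → p ∈ S := by
    intro n
    have : {p : Nat.Primes | (p : ℕ) ≤ n}.Finite := by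
      refine Set.Finite.of_finite_image (f := fun p : Nat.Primes => (p : ℕ)) ?_
        (fun a _ b _ h => Subtype.ext h)
      refine (Set.finite_Iic n).subset ?_
      rintro _ ⟨p, hp, rfl⟩
      exact hp
    exact ⟨this.toFinset, fun p hp => by simpa using hp⟩
  choose S hSn using fin
  choose u hu using fun n : ℕ => crt (G := G) (n !) (fun p => w p (n !)) (S n)
  have hu' : ∀ (n : ℕ) (p : Nat.Primes), (p : ℕ) ≤ n → u n - w p (n !) ∈ Dv G ((p : ℕ) ^ (n !)) :=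
    fun n p hp => hu n p (hSn n p hp)
  have expo : ∀ (p k n : ℕ), p.Prime → p ^ k ∣ n ! → k ≤ n ! := by
    intro p k n hp hd
    exact (Nat.lt_pow_self hp.one_lt).le.trans (Nat.le_of_dvd (Nat.factorial_pos n) hd)
  obtain ⟨L, hL⟩ := hG u (by
    intro n
    have : u (n + 1) - u n ∈ Dv G (n !) := by
      refine Dv_of_primes _ (Nat.factorial_ne_zero n) fun p k hp hd => ?_
      rcases Nat.eq_zero_or_pos k with rfl | hk
      · exact mem_Dv.mpr ⟨_, by rw [pow_zero, one_smul]⟩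
      have hpn : p ≤ n := (hp.dvd_factorial).mp ((dvd_pow_self p hk.ne').trans hd)
      have hkn := expo p k n hp hd
      have a1 := hu' n ⟨p, hp⟩ hpn
      have a2 := hu' (n + 1) ⟨p, hp⟩ (hpn.trans (Nat.le_succ n))
      have a3 := congF ⟨p, hp⟩ (n !) ((n + 1) !) (Nat.factorial_le (Nat.le_succ n))
      have b1 := Dv_mono (pow_dvd_pow p hkn) a1
      have b2 := Dv_mono (pow_dvd_pow p (hkn.trans (Nat.factorial_le (Nat.le_succ n)))) a2
      have b3 := Dv_mono (pow_dvd_pow p hkn) a3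
      have := (Dv G (p ^ k)).sub_mem ((Dv G (p ^ k)).add_mem b2 b3) b1
      have e : u (n + 1) - u n = u (n + 1) - w ⟨p, hp⟩ ((n + 1) !)
        + (w ⟨p, hp⟩ ((n + 1) !) - w ⟨p, hp⟩ (n !)) - (u n - w ⟨p, hp⟩ (n !)) := by abel
      rw [e]; exact this
    obtain ⟨y, hy⟩ := mem_Dv.mp this
    exact ⟨y, hy.symm⟩)
  refine ⟨L, fun p i => ?_⟩
  -- the coordinates of `L` are approximated by the filtered coordinates
  have approxL : ∀ k : ℕ, ∃ n : ℕ, k ≤ n ∧
      ((p : ℕ) : ℤ_[(p : ℕ)]) ^ k ∣ Ψ p L i - ((F p (c p n) i : ℤ) : ℤ_[(p : ℕ)]) := by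
    intro k
    let n : ℕ := (p : ℕ) ^ k + p
    have hpn : (p : ℕ) ≤ n := Nat.le_add_left _ _
    have hdn : (p : ℕ) ^ k ∣ n ! := by
      refine Nat.dvd_factorial (pow_pos p.2.pos k) (Nat.le_add_right _ _)
    have hkn := expo p k n p.2 hdn
    refine ⟨n !, hkn, ?_⟩
    obtain ⟨y, hy⟩ := hL n
    have b1 : L - u n ∈ Dv G ((p : ℕ) ^ k) := Dv_mono hdn (mem_Dv.mpr ⟨y, hy.symm⟩)
    have b2 := Dv_mono (pow_dvd_pow (p : ℕ) hkn) (hu' n p hpn)
    have b3 := (Dv G ((p : ℕ) ^ k)).add_mem b1 b2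
    have e : L - u n + (u n - w p (n !)) = L - comb (b p) (F p (c p (n !))) := by
      show L - u n + (u n - w p (n !)) = L - w p (n !)
      abel
    rw [e] at b3
    exact (hS p k L _).mp b3 i
  constructor
  · intro hi
    apply eq_of_sub_eq_zero
    apply padic_sep
    intro k
    obtain ⟨n, hkn, h1⟩ := approxL k
    have e1 : F p (c p n) i = c p n i := Finsupp.filter_apply_pos _ _ hi
    rw [e1] at h1
    have h2 := (pow_dvd_pow _ hkn).trans ((hS p n g (c p n)).mp (hc p n) i)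
    have h3 := dvd_sub h1 h2
    have : Ψ p L i - Ψ p g i = Ψ p L i - ((c p n i : ℤ) : ℤ_[(p : ℕ)])
      - (Ψ p g i - ((c p n i : ℤ) : ℤ_[(p : ℕ)])) := by ring
    rw [this]; exact h3
  · intro hi
    apply padic_sep
    intro k
    obtain ⟨n, hkn, h1⟩ := approxL k
    have e1 : F p (c p n) i = 0 := Finsupp.filter_apply_neg _ _ hi
    rw [e1] at h1
    simpa using h1

end H215_Arch
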