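import Mathlib
import Pool.Agent.H215_Arch.Restr

/-!
Every torsion-free abelian group whose integer-adic Cauchy sequences converge has an Archimedean
lattice order.
-/

set_option autoImplicit false

namespace H215_Arch

open Cardinal

local instance factPrimes' (p : Nat.Primes) : Fact (p : ℕ).Prime := ⟨p.2⟩

/-- A torsion-free group of cardinality at most the continuum embeds in the real numbers. -/
lemma exists_embedding (H : Type) [AddCommGroup H]
    (htf : ∀ g : H, ∀ n : ℕ, n ≠ 0 → n • g = 0 → g = 0) (hc : #H ≤ continuum) :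
    ∃ θ : H →+ ℝ, Function.Injective θ := by
  have : IsAddTorsionFree H := by
    refine ⟨fun n hn a b hab => ?_⟩
    have : n • (a - b) = 0 := by
      have hab' : n • a = n • b := hab
      rw [nsmul_sub, hab', sub_self]
    exact sub_eq_zero.mp (htf _ n hn this)
  have hcard : #(DivisibleHull H) ≤ continuum := by
    have hsurj : Function.Surjective (fun q : H × ℕ+ => DivisibleHull.mk q.1 q.2) := by
      intro x
      induction x with | mk m s
      exact ⟨(m, s), rfl⟩
    refine (mk_le_of_surjective hsurj).trans ?_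
    rw [mk_prod, lift_id, lift_id]
    calc #H * #ℕ+ ≤ continuum * continuum := by
          refine mul_le_mul' hc ?_
          exact (mk_le_aleph0).trans aleph0_le_continuum
      _ = continuum := continuum_mul_self
  have hr : Module.rank ℚ (DivisibleHull H) ≤ Module.rank ℚ ℝ := by
    rw [Real.rank_rat_real]
    exact (_root_.rank_le_card ℚ (DivisibleHull H)).trans hcard
  obtain ⟨f, hf⟩ := rank_le_iff_exists_linearMap.mp hr
  refine ⟨f.toAddMonoidHom.comp (DivisibleHull.coeAddMonoidHom H), ?_⟩
  intro a b hab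
  exact DivisibleHull.coe_injective (hf hab)

lemma padic_embedding (p : ℕ) [Fact p.Prime] : ∃ θ : ℤ_[p] →+ ℝ, Function.Injective θ := by
  refine exists_embedding _ ?_ ?_
  · intro g n hn h
    rw [nsmul_eq_mul] at h
    rcases mul_eq_zero.mp h with h | h
    · exact absurd (by exact_mod_cast h) hn
    · exact h
  · have hinj : Function.Injective (fun x : ℤ_[p] => (fun n => PadicInt.appr x n : ℕ → ℕ)) := by
      intro x y hxy
      apply eq_of_sub_eq_zero
      apply padic_sep
      intro n
      have h1 := PadicInt.appr_spec n x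
      have h2 := PadicInt.appr_spec n y
      rw [Ideal.mem_span_singleton] at h1 h2
      have h3 : PadicInt.appr x n = PadicInt.appr y n := congr_fun hxy n
      rw [h3] at h1
      have := dvd_sub h1 h2
      simpa using this
    have := mk_le_of_injective hinj
    refine this.trans ?_
    simp

/-- `G` carries an Archimedean lattice order (the conclusion of the frozen statement S01947). -/
def HasArch (G : Type) [AddCommGroup G] : Prop :=
  ∃ _ : Lattice G,
    (∀ a b c : G, a ≤ b → c + a ≤ c + b) ∧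
    (∀ a b : G, (∀ n : ℕ, n • a ≤ b) → a ≤ 0)

/-- A jointly injective family of real-valued homomorphisms for which positive parts exist. -/
theorem hasArch_of_maps {G : Type} [AddCommGroup G] {K : Type} (φ : K → (G →+ ℝ))
    (hinj : ∀ g : G, (∀ k, φ k g = 0) → g = 0)
    (hpos : ∀ g : G, ∃ g' : G, ∀ k, φ k g' = max (φ k g) 0) : HasArch G := by
  choose P hP using hpos
  let L : Lattice G :=
    { le := fun a b => ∀ k, φ k a ≤ φ k b
      le_refl := fun a k => le_refl _
      le_trans := fun a b c hab hbc k => (hab k).trans (hbc k)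
      le_antisymm := fun a b hab hba => by
        apply eq_of_sub_eq_zero
        apply hinj
        intro k
        rw [map_sub, le_antisymm (hab k) (hba k), sub_self]
      sup := fun a b => a + P (b - a)
      inf := fun a b => a - P (a - b)
      le_sup_left := fun a b k => by
        rw [map_add, hP]
        have := le_max_right (φ k (b - a)) 0
        linarith
      le_sup_right := fun a b k => by
        rw [map_add, hP, map_sub]
        have := le_max_left (φ k b - φ k a) 0
        linarith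
      sup_le := fun a b c hac hbc k => by
        have h4 := hac k
        have h5 := hbc k
        show φ k (a + P (b - a)) ≤ φ k c
        rw [map_add, hP, map_sub]
        rcases max_choice (φ k b - φ k a) 0 with h | h
        · rw [h]; linarith
        · rw [h]; linarith
      inf_le_left := fun a b k => by
        show φ k (a - P (a - b)) ≤ φ k a
        rw [map_sub, hP]
        have := le_max_right (φ k (a - b)) 0
        linarith
      inf_le_right := fun a b k => by
        show φ k (a - P (a - b)) ≤ φ k b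
        rw [map_sub, hP, map_sub]
        have := le_max_left (φ k a - φ k b) 0
        linarith
      le_inf := fun a b c hab hac k => by
        have h4 := hab k
        have h5 := hac k
        show φ k a ≤ φ k (b - P (b - c))
        rw [map_sub, hP, map_sub]
        rcases max_choice (φ k b - φ k c) 0 with h | h
        · rw [h]; linarith
        · rw [h]; linarith }
  refine ⟨L, ?_, ?_⟩
  · intro a b c hab k
    have := hab k
    rw [map_add, map_add]
    linarith
  · intro a b hab k
    by_contra hcon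
    rw [map_zero] at hcon
    have hpos : 0 < φ k a := lt_of_not_ge hcon
    obtain ⟨n, hn⟩ := Archimedean.arch (φ k b + 1) hpos
    have h1 := hab n k
    rw [map_nsmul] at h1
    linarith

/-- A torsion-free group has a homomorphism to a direct sum of copies of `ℚ` whose restriction to the
divisible part is an isomorphism. -/
lemma exists_divisible_coord (G : Type) [AddCommGroup G]
    (htf : ∀ g : G, ∀ n : ℕ, n ≠ 0 → n • g = 0 → g = 0) :
    ∃ (B : Type) (Φ : G →+ (B →₀ ℚ)),
      (∀ d : G, (∀ n : ℕ, n ≠ 0 → d ∈ Dv G n) → Φ d = 0 → d = 0) ∧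
      (∀ v : B →₀ ℚ, ∃ d : G, (∀ n : ℕ, n ≠ 0 → d ∈ Dv G n) ∧ Φ d = v) := by
  have tf : IsAddTorsionFree G := by
    refine ⟨fun n hn a b hab => ?_⟩
    have : n • (a - b) = 0 := by
      have hab' : n • a = n • b := hab
      rw [nsmul_sub, hab', sub_self]
    exact sub_eq_zero.mp (htf _ n hn this)
  let ι : G →+ DivisibleHull G := DivisibleHull.coeAddMonoidHom G
  have hι : Function.Injective ι := DivisibleHull.coe_injective
  -- division inside the divisible part
  have hdiv : ∀ d : G, (∀ n : ℕ, n ≠ 0 → d ∈ Dv G n) → ∀ m : ℕ, m ≠ 0 →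
      ∃ d' : G, (∀ n : ℕ, n ≠ 0 → d' ∈ Dv G n) ∧ m • d' = d := by
    intro d hd m hm
    obtain ⟨d', hd'⟩ := mem_Dv.mp (hd m hm)
    refine ⟨d', fun n hn => ?_, hd'⟩
    obtain ⟨e, he⟩ := mem_Dv.mp (hd (m * n) (mul_ne_zero hm hn))
    refine mem_Dv.mpr ⟨e, ?_⟩
    have : m • (n • e - d') = 0 := by
      rw [smul_sub, smul_smul, he, hd', sub_self]
    exact sub_eq_zero.mp (htf _ m hm this)
  let W : Submodule ℚ (DivisibleHull G) :=
    { carrier := {v | ∃ d : G, (∀ n : ℕ, n ≠ 0 → d ∈ Dv G n) ∧ ι d = v}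
      zero_mem' := ⟨0, fun n _ => AddSubgroup.zero_mem _, map_zero _⟩
      add_mem' := by
        rintro _ _ ⟨d, hd, rfl⟩ ⟨e, he, rfl⟩
        exact ⟨d + e, fun n hn => AddSubgroup.add_mem _ (hd n hn) (he n hn), map_add _ _ _⟩
      smul_mem' := by
        rintro q _ ⟨d, hd, rfl⟩
        obtain ⟨d', hd', he⟩ := hdiv d hd q.den q.den_ne_zero
        refine ⟨q.num • d', fun n hn => AddSubgroup.zsmul_mem _ (hd' n hn) _, ?_⟩
        rw [← he, map_zsmul, map_nsmul, ← Int.cast_smul_eq_zsmul ℚ, ← Nat.cast_smul_eq_nsmul ℚ,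
          smul_smul, Rat.mul_den_eq_num] }
  obtain ⟨π, hπ⟩ := W.subtype.exists_leftInverse_of_injective (by simp)
  let B := Module.Basis.ofVectorSpace ℚ W
  let Φ : G →+ (_ →₀ ℚ) := (B.repr.toLinearMap.comp π).toAddMonoidHom.comp ι
  have hΦ : ∀ (d : G) (hd : ∀ n : ℕ, n ≠ 0 → d ∈ Dv G n),
      Φ d = B.repr ⟨ι d, ⟨d, hd, rfl⟩⟩ := by
    intro d hd
    have h1 : π (ι d) = ⟨ι d, ⟨d, hd, rfl⟩⟩ := by
      have := LinearMap.congr_fun hπ (⟨ι d, ⟨d, hd, rfl⟩⟩ : W)
      simpa using this
    show B.repr (π (ι d)) = _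
    rw [h1]
  refine ⟨_, Φ, ?_, ?_⟩
  · intro d hd h0
    rw [hΦ d hd] at h0
    have h1 := (LinearEquiv.map_eq_zero_iff B.repr).mp h0
    have h2 : ι d = 0 := congrArg Subtype.val h1
    exact hι (by rw [h2, map_zero])
  · intro v
    obtain ⟨d, hd, he⟩ := (B.repr.symm v).2
    refine ⟨d, hd, ?_⟩
    rw [hΦ d hd]
    have : (⟨ι d, ⟨d, hd, rfl⟩⟩ : W) = B.repr.symm v := Subtype.ext he
    rw [this, LinearEquiv.apply_symm_apply]

/-- Main theorem. -/
theorem hasArch_of_cauchyComplete (G : Type) [AddCommGroup G]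
    (htf : ∀ g : G, ∀ n : ℕ, n ≠ 0 → n • g = 0 → g = 0) (hG : CauchyComplete G) : HasArch G := by
  classical
  choose I b Ψ hA hS using fun p : Nat.Primes => exists_coord G htf (p : ℕ)
  choose θ hθ using fun p : Nat.Primes => padic_embedding (p : ℕ)
  obtain ⟨B, Φ, hΦ1, hΦ2⟩ := exists_divisible_coord G htf
  let rat : ℚ →+ ℝ := (Rat.castHom ℝ).toAddMonoidHom
  have hrat : ∀ q : ℚ, rat q = (q : ℝ) := fun q => rfl
  have hθ0 : ∀ (p : Nat.Primes) (x : ℤ_[(p : ℕ)]), θ p x = 0 → x = 0 := fun p x h =>
    hθ p (by rw [h, map_zero])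
  let φ : (B ⊕ (Σ p, I p)) → (G →+ ℝ) := Sum.elim
    (fun k => rat.comp ((Finsupp.applyAddHom k).comp Φ))
    (fun k => (θ k.1).comp ((Pi.evalAddMonoidHom (fun _ : I k.1 => ℤ_[(k.1 : ℕ)]) k.2).comp (Ψ k.1)))
  have hφ1 : ∀ k g, φ (Sum.inl k) g = ((Φ g k : ℚ) : ℝ) := fun k g => rfl
  have hφ2 : ∀ (p : Nat.Primes) (i : I p) g, φ (Sum.inr ⟨p, i⟩) g = θ p (Ψ p g i) :=
    fun p i g => rfl
  -- the divisible part is the kernel of the p-adic coordinates
  have hker1 : ∀ g : G, (∀ p i, Ψ p g i = 0) → ∀ n : ℕ, n ≠ 0 → g ∈ Dv G n := by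
    intro g hg n hn
    have step : ∀ (p : Nat.Primes) (k : ℕ), g ∈ Dv G ((p : ℕ) ^ k) := by
      intro p k
      have := (hS p k g 0).mpr (fun i => by rw [hg]; simp)
      simpa using this
    exact Dv_of_primes n hn fun p k hp _ => step ⟨p, hp⟩ k
  have hker2 : ∀ g : G, (∀ n : ℕ, n ≠ 0 → g ∈ Dv G n) → ∀ p i, Ψ p g i = 0 := by
    intro g hg p i
    apply padic_sep
    intro n
    have h1 : g - comb (b p) 0 ∈ Dv G ((p : ℕ) ^ n) := by
      rw [map_zero, sub_zero]; exact hg _ (pow_ne_zero _ p.2.ne_zero)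
    simpa using (hS p n g 0).mp h1 i
  refine hasArch_of_maps φ ?_ ?_
  · intro g hg
    have h1 : ∀ p i, Ψ p g i = 0 := fun p i => hθ0 p _ (by rw [← hφ2]; exact hg _)
    refine hΦ1 g (hker1 g h1) ?_
    ext k
    have := hg (Sum.inl k)
    rw [hφ1] at this
    exact_mod_cast this
  · intro g
    obtain ⟨L, hL⟩ := exists_restr hG b Ψ hA hS g (fun p => {i | 0 ≤ θ p (Ψ p g i)})
    let v : B →₀ ℚ := (Φ g).mapRange (fun q => max q 0) (by simp) - Φ L
    obtain ⟨d, hd, hdv⟩ := hΦ2 v
    refine ⟨L + d, ?_⟩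
    rintro (k | ⟨p, i⟩)
    · rw [hφ1, hφ1, map_add, hdv]
      have : (Φ L + v) k = max (Φ g k) 0 := by simp [v]
      rw [this]
      push_cast
      rfl
    · rw [hφ2, hφ2, map_add, Pi.add_apply, hker2 d hd, add_zero]
      by_cases hi : 0 ≤ θ p (Ψ p g i)
      · rw [(hL p i).1 hi, max_eq_left hi]
      · rw [(hL p i).2 hi, map_zero, max_eq_right (le_of_not_ge hi)]

end H215_Arch
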